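import Mathlib

/-! Kernel checker: primes for which `-3` is a primitive root and `-2`, `-1` are not. -/

namespace Pool.Agent.Lead.NR

set_option maxRecDepth 1000000

noncomputable def force {α : Type} (x : ℕ) (f : ℕ → α) : α :=
  Nat.rec (motive := fun _ => α) (f 0) (fun i _ => f (Nat.succ i)) x

theorem force_eq {α : Type} (x : ℕ) (f : ℕ → α) : force x f = f x := by cases x <;> rfl

noncomputable def allB (n : ℕ) (f : ℕ → Bool) : Bool :=
  Nat.rec (motive := fun _ => Bool) true (fun i ih => Bool.rec false ih (f i)) n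

theorem allB_sound (n : ℕ) (f : ℕ → Bool) (h : allB n f = true) : ∀ i < n, f i = true := by
  induction n with
  | zero => simp
  | succ n ih =>
    have e : allB (n + 1) f = Bool.rec false (allB n f) (f n) := rfl
    rw [e] at h
    intro i hi
    cases hf : f n with
    | false => rw [hf] at h; exact absurd h (by simp)
    | true =>
      rw [hf] at h
      rcases Nat.lt_succ_iff_lt_or_eq.1 hi with h1 | rfl
      · exact ih h i h1
      · exact hf

def PP : ℕ := 0x8a9b52c656586dd5a251b6ddd1c673ad78924c9ae165c5fca856d228bbee1ca20deb994d755d103e7a93f311402bad35dba66a840708b31e51004e6cab1ddfb29ea2fa6ba173241e3cf8f135d212517544077bc406915fecb2462124c027cdbf62714e8f851253e010b249afd597dce21bbda6b253cb3377830f7376847deff4d6714792cecff7f5803e05c6f660835eceecf943a0bd4a3207f63e64d8c3753a79230a88a1893a23603c1bed1f54ed75e68df7829fe76dd1c031c82a2a2d8d7304ee9b838dec0600cbb48adb06437db10f9e5645afec827414f1f860f240b63d11206d30bae08597804bce9a94b790f2921e2368db0f3b8404ab94a525ecc88d6b4b3c4a210c970307d0be47b9c817e736bd2405312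0f59a62a267996bd7da6d56465c722827c9902b55cd18ddd7f6c23760ab908ee5cabd82792fb5ba1ca7470795fe02261817a1ce11cbf6aa66b4bc19d1528841d0b655eee03e619720f0404dba51f8e43e2e740dc17eb16140fffaabe4f20daed939f7f0132e1c3cd50ba05c096e5903cbe5b6319ff9f7ab4f80dbdb5096c6459f798ef51396cc8c03d8faac2e5ea456a9da6697b83f0e09fa0eaa2d819cf6601c996de9ecf81252804da0dca6e12baae88ff95160f34be6a21861a6f29bfdef230d1e504cf513451fe7d5f3aa504682d063fb18d97dab62468116bf7f95ad6b7de63ad68792d9fb53b26031d57587ff8c17d9c1fc82a1e4d682d2e78bc4687c1b5fae57ba7198db146b2e5f34387c566267762ac106c749f023422890a2c8e827174937f1a75f736ce5a1f300eb81c42139fd749bc0d0cb1f2c4561fd6f9cbd25c157900ede262c50f6a565782e03caef59e181dfe0dc39f54e8778de79607d1aa68026daf2ece2c5d80dcd8e18da23b56d6914a085eb41429e460c4068fb167ce67eaf0699eca91789a5cb079710f22c47493536c63f47e7f87a79e3058bf32e7a76a90fe95944936f6f013d99d69ab025fd7f76e150114b2ec6f8c63de25cf5b76be113c4b9ee28d81727e5c5578c5263f62a96e856ad80a0bcaf5516ea7c47d7a507c21525f45f105bb4638210fcb0620ecc7fb55d0c20fd6a6faca4966a2af76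bffa39ebf2c376b3f6ee5768ea5b93873545b29db35088d479c612710a36913665bc52370b4984c1f393014e431df47f01cc61bbeb097f9664b95e7a63c3c8cd040c22d20ced263956cc84d7c19d51a6ca3e4ef35b563e1f9699d0885b88250f9418b527c3990dca7c7d88eeeacedf75c3c3418fc94a646e800aa53f161497a552f7d5a18647942bdd956ed44cb34a7397363d8f2e965db575e4489371f04b6caba84b8a88b82fcdcb54a97b6eefdee4c812afe83b0479a4bd39445a1282855973b48adea77160647f1de6cc8b6ad1616bc8f5bc3929c6174b79ce21516398bf60785945406502a13e6670ff960a2daacdceaa96408ed3ea769aff7e5ae06f1d5e06a2af0da5ce42dc01da3ee7c102c68707f17b96e48cf698989010428b202add4fa7101bbce7969d0758e83e5ccc1ae0df6cabc004fbc4433f2b1a8b43d3851ee9a6f8547e41cd58f8faf90e6da9c7ee296251ae8ec537d627c154b1100ae98f1a7dd3f804a58fa7e3b69d8c027986dadc864c430d707297098914faa5863abc1fabfa5e18a08bf19133761655a490b20aa2f533f2501a9abf56dcfa1c584b826bacd081b516d2f5a079c4604ee495889a0a815ea05bddba5b972ee26f0d5a4fec7fbf443350ddfbd2f55ae7a29ea2077edb7b6a43b89ef01e1d64a82125e5f9a2722050920e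

def MM : ℕ := 0x800808820008000008208020228200200820008000020a00020000000800a00220808008200008a20800200200208200000220000000a20020008820008808820220000208800020008800a08220028028220208200808028220000a08000200020800020000020000a00028020028020008000000208820200828800208020000808000028200208000008020020008800808200220808208828028000000208808000800a08200020228800008028028000a00000220008020a00a00820028200020000800808000220a08028800020200000008020220000a00000820000020200820828200820208208028008020a08200800020220808a00000200800808028020200200a00820800208820200008800008200000020008008800008200028028220a08800820208200808800000020a20000208020220800200a28828000800000008020220820000008828008a00008a08000020a20800a20808208200000008800200800208200028200200000228800020020200808800208000000820828008220000808008000a00a08820800228020808228008020800200208020000000800220028228800000808000220a00008008008200820a08a00020000820808000820028000008a20800200a00008208820000a00200208000200820200a00800000020208028028200a00a00a08020000020000a2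0008228000800828008200020a00000828208a00200000800008800a08a08800020220008028800200a00008220008028200000820808020220800228008000820808220800200a00800a00828228020800808000028a20200020000208000a00028028008800a08820828000000800a28000020220208008820028800000200028020000208800820020220008808028000000a08220008008020208200808000220808220008000a20a00200800220200a00828808228820808a00800200220200028008000020a08808020000800000220808008220008208008220a20800208828200000a00220820228000808a00020208800000800020200a20a00028008028a00208020008028020808a20808200000a00028000208200200a28820008000808008020028820000820820200a00200a20000028820000200828228220008808808220800808008008228a00800828808228800200800020208200000000828008a20a08a00008020020a08220020208200808028000020820208228800020a00a00828028220020808208800208220200808800008a20008a20008028a00a00200800220220808820808020200808220028208a00800a20828208020a08200820000a00208808808008a20208828028020220208820808228020800228800200a20a08208028228800800a28028208820a00a08800228a20208828828208a20a08a28ac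

noncomputable def pw (b e p : ℕ) : ℕ :=
  Bool.rec (motive := fun _ => ℕ)
    (Nat.mod (Nat.mul (Nat.pow (Nat.mod (Nat.mul (Nat.pow (Nat.mod (Nat.mul (Nat.pow
      (Nat.mod (Nat.pow b (Nat.div e 2097152)) p) 128)
      (Nat.pow b (Nat.mod (Nat.div e 16384) 128))) p) 128)
      (Nat.pow b (Nat.mod (Nat.div e 128) 128))) p) 128) (Nat.pow b (Nat.mod e 128))) p)
    (Nat.mod (Nat.pow b e) p) (Nat.ble e 3000)

theorem pw_eq (b e p : ℕ) : pw b e p = b ^ e % p := by
  unfold pw
  cases Nat.ble e 3000 with
  | true => rfl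
  | false =>
    have step : ∀ u d x : ℕ, x = b ^ u % p → (x ^ 128 * b ^ d) % p = b ^ (u * 128 + d) % p := by
      intro u d x hx
      rw [hx, pow_add, pow_mul, Nat.mul_mod, ← Nat.pow_mod, ← Nat.mul_mod]
    have h1 := step (e / 2097152) (e / 16384 % 128) _ rfl
    have h2 := step _ (e / 128 % 128) _ h1
    have h3 := step _ (e % 128) _ h2
    have e0 : ((e / 2097152 * 128 + e / 16384 % 128) * 128 + e / 128 % 128) * 128 + e % 128 = e := by
      omega
    rw [e0] at h3
    exact h3

noncomputable def smallP (q : ℕ) : Bool := Nat.beq (Nat.land (Nat.shiftRight MM q) 1) 1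

noncomputable def bigP (q : ℕ) : Bool := Nat.beq (Nat.gcd q PP) 1

theorem PP_chk : allB 7201 (fun k => Nat.ble k 1 || !Nat.beq (Nat.gcd k PP) 1) = true := by
  decide +kernel

theorem bigP_sound (q : ℕ) (h1 : 1 < q) (h2 : q < 51854401) (h : bigP q = true) : q.Prime := by
  by_contra hq
  have h3 : q.minFac ^ 2 ≤ q := Nat.minFac_sq_le_self (by omega) hq
  have h4 : q.minFac < 7201 := by nlinarith
  have h5 : q.minFac.Prime := Nat.minFac_prime (by omega)
  have h6 := allB_sound _ _ PP_chk _ h4
  have h7 : Nat.gcd q PP = 1 := Nat.eq_of_beq_eq_true h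
  have h8 : Nat.gcd q.minFac PP = 1 := Nat.Coprime.coprime_dvd_left (Nat.minFac_dvd q) h7
  have := h5.two_le
  simp only [h8, Bool.or_eq_true, Nat.ble_eq] at h6
  rcases h6 with h6 | h6
  · omega
  · exact absurd h6 (by decide)

theorem MM_chk : allB 8192 (fun k => !smallP k || (Nat.ble 2 k &&
    allB 91 (fun j => Nat.ble j 1 || Nat.ble k j || !Nat.beq (Nat.mod k j) 0))) = true := by
  decide +kernel

theorem smallP_sound (q : ℕ) (h2 : q < 8192) (h : smallP q = true) : q.Prime := by
  have h6 := allB_sound _ _ MM_chk _ h2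
  simp only [h, Bool.not_true, Bool.false_or, Bool.and_eq_true, Nat.ble_eq] at h6
  by_contra hq
  have h1 := h6.1
  have h3 : q.minFac ^ 2 ≤ q := Nat.minFac_sq_le_self (by omega) hq
  have h4 : q.minFac < 91 := by nlinarith
  have h5 : q.minFac.Prime := Nat.minFac_prime (by omega)
  have h7 := allB_sound _ _ h6.2 _ h4
  have h8 : Nat.mod q q.minFac = 0 := Nat.mod_eq_zero_of_dvd (Nat.minFac_dvd q)
  have := h5.two_le
  simp only [h8, Bool.or_eq_true, Nat.ble_eq] at h7
  rcases h7 with (h7 | h7) | h7
  · omega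
  · have h9 := mul_le_mul h7 this (by omega) (by omega)
    rw [← pow_two] at h9
    omega
  · exact absurd h7 (by decide)

/-- Every odd prime `l ∣ m` has `b ^ (n / l) % p ≠ 1`. -/
noncomputable def fac (b n p c : ℕ) : ℕ → ℕ → Bool :=
  Nat.rec (motive := fun _ => ℕ → ℕ → Bool)
    (fun _ m => Bool.rec
      (Bool.rec false (Bool.rec true false (Nat.beq (force (Nat.div n m) fun e => pw b e p) 1))
        (Bool.rec (smallP m) (bigP m) (Nat.ble 8192 m)))
      true (Nat.beq m 1))
    (fun _ ih D m => force (Nat.land D 8191) fun q =>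
      Bool.rec false (Bool.rec
        (force (Nat.div m (Nat.gcd m (Nat.pow q 11))) fun m' => ih (Nat.shiftRight D 13) m') false
        (Nat.beq (force (Nat.div n q) fun e => pw b e p) 1)) (smallP q)) c

theorem fac_sound (b n p c : ℕ) : ∀ D m, m < 51854401 → fac b n p c D m = true →
    ∀ l, l.Prime → l ∣ m → b ^ (n / l) % p ≠ 1 := by
  induction c with
  | zero =>
    intro D m hm h l hl hlm
    have e : fac b n p 0 D m = Bool.rec
      (Bool.rec false (Bool.rec true false (Nat.beq (force (Nat.div n m) fun e => pw b e p) 1))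
        (Bool.rec (smallP m) (bigP m) (Nat.ble 8192 m))) true (Nat.beq m 1) := rfl
    rw [e, force_eq, pw_eq] at h
    cases h1 : Nat.beq m 1 with
    | true =>
      rw [Nat.eq_of_beq_eq_true h1] at hlm
      exact absurd (Nat.le_of_dvd one_pos hlm) (by have := hl.two_le; omega)
    | false =>
      rw [h1] at h
      have hp : m.Prime := by
        cases h2 : Nat.ble 8192 m with
        | true =>
          rw [h2] at h
          have := Nat.le_of_ble_eq_true h2
          refine bigP_sound m (by omega) hm ?_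
          cases h3 : bigP m with
          | true => rfl
          | false => rw [h3] at h; exact absurd h (by simp)
        | false =>
          rw [h2] at h
          have : ¬ 8192 ≤ m := fun h' => by rw [Nat.ble_eq_true_of_le h'] at h2; exact absurd h2 (by simp)
          refine smallP_sound m (by omega) ?_
          cases h3 : smallP m with
          | true => rfl
          | false => rw [h3] at h; exact absurd h (by simp)
      rw [(Nat.prime_dvd_prime_iff_eq hl hp).mp hlm]
      intro h4
      have h5 : Nat.beq (b ^ Nat.div n m % p) 1 = true := by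
        rw [show Nat.div n m = n / m from rfl, h4]; rfl
      rw [h5] at h
      cases h6 : (Bool.rec (smallP m) (bigP m) (Nat.ble 8192 m) : Bool) <;> rw [h6] at h <;>
        exact absurd h (by simp)
  | succ c ih =>
    intro D m hm h l hl hlm
    have e : fac b n p (c + 1) D m = force (Nat.land D 8191) fun q =>
      Bool.rec false (Bool.rec
        (force (Nat.div m (Nat.gcd m (Nat.pow q 11))) fun m' => fac b n p c (Nat.shiftRight D 13) m')
        false (Nat.beq (force (Nat.div n q) fun e => pw b e p) 1)) (smallP q) := rfl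
    rw [e, force_eq, force_eq, force_eq, pw_eq] at h
    have hq : Nat.land D 8191 < 8192 := Nat.and_lt_two_pow (n := 13) D (by norm_num)
    generalize Nat.land D 8191 = q at h hq
    cases h1 : smallP q with
    | false => rw [h1] at h; exact absurd h (by simp)
    | true =>
      rw [h1] at h
      have hp := smallP_sound q hq h1
      cases h2 : Nat.beq (b ^ Nat.div n q % p) 1 with
      | true => rw [h2] at h; exact absurd h (by simp)
      | false =>
        rw [h2] at h
        by_cases hlq : l = q
        · subst hlq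
          exact Nat.ne_of_beq_eq_false h2
        · refine ih _ _ (lt_of_le_of_lt (Nat.div_le_self _ _) hm) h l hl ?_
          have h3 : m = m / Nat.gcd m (q ^ 11) * Nat.gcd m (q ^ 11) :=
            (Nat.div_mul_cancel (Nat.gcd_dvd_left _ _)).symm
          rw [h3] at hlm
          rcases (Nat.Prime.dvd_mul hl).mp hlm with h4 | h4
          · exact h4
          · exact absurd ((Nat.prime_dvd_prime_iff_eq hl hp).mp
              (hl.dvd_of_dvd_pow (h4.trans (Nat.gcd_dvd_right _ _)))) hlq

def Good (p : ℕ) : Prop :=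
  p.Prime ∧ orderOf (-3 : ZMod p) = p - 1 ∧ orderOf (-2 : ZMod p) ≠ p - 1 ∧
    orderOf (-1 : ZMod p) ≠ p - 1

theorem neg_pow_iff (p b e : ℕ) (hp : 1 < p) (he : Even e) :
    (-(b : ZMod p)) ^ e = 1 ↔ b ^ e % p = 1 := by
  rw [he.neg_pow, ← Nat.cast_pow, ← Nat.cast_one (R := ZMod p), ZMod.natCast_eq_natCast_iff',
    Nat.mod_eq_of_lt hp]

theorem even_div (n l : ℕ) (hn : Even n) (hl : l % 2 = 1) (h : l ∣ n) : Even (n / l) := by
  obtain ⟨k, rfl⟩ := h
  rw [Nat.mul_div_cancel_left _ (by omega)]
  rcases Nat.even_mul.mp hn with h | h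
  · exact absurd (Nat.even_iff.mp h) (by omega)
  · exact h

theorem order_of_tests (p b : ℕ) (hp : p.Prime) (h2 : p % 2 = 1) (hb : (b : ZMod p) ≠ 0)
    (hs : ¬ IsSquare (-(b : ZMod p)))
    (h : ∀ l, l.Prime → l ∣ (p - 1) / Nat.gcd (p - 1) (2 ^ 26) → b ^ ((p - 1) / l) % p ≠ 1) :
    orderOf (-(b : ZMod p)) = p - 1 := by
  have := Fact.mk hp
  have h1 := hp.two_le
  refine orderOf_eq_of_pow_and_pow_div_prime (by omega)
    (ZMod.pow_card_sub_one_eq_one (neg_ne_zero.mpr hb)) fun l hl hd => ?_
  rcases hl.eq_two_or_odd with rfl | ho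
  · intro e
    apply hs
    rw [ZMod.euler_criterion p (neg_ne_zero.mpr hb), show p / 2 = (p - 1) / 2 by omega]
    exact e
  · rw [Ne, neg_pow_iff p b _ (by omega) (even_div _ _ (Nat.even_iff.mpr (by omega)) ho hd)]
    refine h l hl ?_
    have h3 : p - 1 = (p - 1) / Nat.gcd (p - 1) (2 ^ 26) * Nat.gcd (p - 1) (2 ^ 26) :=
      (Nat.div_mul_cancel (Nat.gcd_dvd_left _ _)).symm
    rw [h3] at hd
    rcases (Nat.Prime.dvd_mul hl).mp hd with h4 | h4
    · exact h4
    · have := (Nat.prime_dvd_prime_iff_eq hl Nat.prime_two).mp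
        (hl.dvd_of_dvd_pow (h4.trans (Nat.gcd_dvd_right _ _)))
      omega

theorem not_sq_three (p : ℕ) (hp : p.Prime) (h6 : p % 6 = 5) : ¬ IsSquare (-(3 : ZMod p)) := by
  have := Fact.mk hp
  rintro ⟨x, hx⟩
  have h2 : (2 : ZMod p) ≠ 0 := by
    intro e
    have := (ZMod.natCast_eq_zero_iff 2 p).mp (by exact_mod_cast e)
    have := Nat.le_of_dvd (by norm_num) this
    omega
  have h3 : (3 : ZMod p) ≠ 0 := by
    intro e
    have := (ZMod.natCast_eq_zero_iff 3 p).mp (by exact_mod_cast e)
    have := Nat.le_of_dvd (by norm_num) this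
    omega
  set w : ZMod p := (x - 1) / 2 with hw
  have e1 : w ^ 2 + w + 1 = 0 := by
    rw [hw]; field_simp; linear_combination -hx
  have e2 : w ^ 3 = 1 := by linear_combination (w - 1) * e1
  have e3 : w ≠ 1 := by
    intro e; rw [e] at e1; exact h3 (by linear_combination e1)
  have e4 : w ≠ 0 := by
    intro e; rw [e] at e1; simp at e1
  have : Fact (Nat.Prime 3) := ⟨Nat.prime_three⟩
  have e5 : orderOf w = 3 := orderOf_eq_prime e2 e3
  have e6 := orderOf_dvd_of_pow_eq_one (ZMod.pow_card_sub_one_eq_one e4)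
  rw [e5] at e6
  omega

theorem order_ne (p : ℕ) (x : ZMod p) (e : ℕ) (h0 : 0 < e) (h1 : e < p - 1) (h : x ^ e = 1) :
    orderOf x ≠ p - 1 := by
  intro h2
  have := Nat.le_of_dvd h0 (orderOf_dvd_of_pow_eq_one h)
  omega

theorem order_ne_of_sq (p : ℕ) (hp : p.Prime) (h2 : 2 < p) (x : ZMod p) (hx : x ≠ 0)
    (h : IsSquare x) : orderOf x ≠ p - 1 := by
  have := Fact.mk hp
  have := hp.eq_two_or_odd
  exact order_ne p x (p / 2) (by omega) (by omega) ((ZMod.euler_criterion p hx).mp h)

/-- `-b` is killed by `(p-1)/q`. -/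
noncomputable def wit (b p q : ℕ) : Bool :=
  Nat.ble 2 q && Nat.beq (Nat.mod q 2) 1 && Nat.beq (Nat.mod (Nat.sub p 1) q) 0 &&
    Nat.beq (force (Nat.div (Nat.sub p 1) q) fun e => pw b e p) 1

theorem wit_sound (b p q : ℕ) (h1 : 1 < p) (h2 : p % 2 = 1) (h : wit b p q = true) :
    orderOf (-(b : ZMod p)) ≠ p - 1 := by
  simp only [wit, force_eq, pw_eq, Bool.and_eq_true, Nat.ble_eq] at h
  obtain ⟨⟨⟨a1, a2⟩, a3⟩, a4⟩ := h
  have b2 : q % 2 = 1 := Nat.eq_of_beq_eq_true a2
  have b3 : q ∣ p - 1 := Nat.dvd_of_mod_eq_zero (Nat.eq_of_beq_eq_true a3)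
  have b4 : b ^ ((p - 1) / q) % p = 1 := Nat.eq_of_beq_eq_true a4
  refine order_ne p _ ((p - 1) / q) (Nat.div_pos (Nat.le_of_dvd (by omega) b3) (by omega))
    (Nat.div_lt_self (by omega) a1) ?_
  exact (neg_pow_iff p b _ h1 (even_div _ _ (Nat.even_iff.mpr (by omega)) b2 b3)).mpr b4

noncomputable def rec1 (p c D : ℕ) : Bool :=
  Bool.rec false (Bool.rec false
    (force (Nat.sub p 1) fun n => force (Nat.div n (Nat.gcd n 67108864)) fun m => fac 3 n p c D m)
    (Bool.rec (wit 2 p (Nat.land D 8191)) true (Nat.ble (Nat.land p 7) 3))) (bigP p)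

theorem rec1_sound (p c D : ℕ) (h6 : p % 6 = 5) (hp : p < 51854401) (h : rec1 p c D = true) :
    Good p := by
  unfold rec1 at h
  rw [force_eq, force_eq] at h
  cases h1 : bigP p with
  | false => rw [h1] at h; exact absurd h (by simp)
  | true =>
    rw [h1] at h
    have hpr := bigP_sound p (by omega) hp h1
    have := Fact.mk hpr
    cases h2 : (Bool.rec (wit 2 p (Nat.land D 8191)) true (Nat.ble (Nat.land p 7) 3) : Bool) with
    | false => rw [h2] at h; exact absurd h (by simp)
    | true =>
      rw [h2] at h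
      have hne : ∀ b : ℕ, 0 < b → b < 5 → (b : ZMod p) ≠ 0 := by
        intro b h0 h5 e
        have := Nat.le_of_dvd h0 ((ZMod.natCast_eq_zero_iff b p).mp e)
        omega
      refine ⟨hpr, ?_, ?_, order_ne p _ 2 (by norm_num) (by omega) (by simp)⟩
      · have := order_of_tests p 3 hpr (by omega) (hne 3 (by norm_num) (by norm_num))
          (by simpa using not_sq_three p hpr h6)
          (fac_sound 3 _ p c D _ (lt_of_le_of_lt (Nat.div_le_self _ _) (by omega)) h)
        simpa using this
      · cases h3 : Nat.ble (Nat.land p 7) 3 with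
        | false =>
          rw [h3] at h2
          simpa using wit_sound 2 p _ (by omega) (by omega) h2
        | true =>
          have h4 : p % 8 ≤ 3 := by
            have := Nat.le_of_ble_eq_true h3
            rwa [show Nat.land p 7 = p % 2 ^ 3 from Nat.and_two_pow_sub_one_eq_mod p 3] at this
          refine order_ne_of_sq p hpr (by omega) _ ?_
            ((ZMod.exists_sq_eq_neg_two_iff (by omega)).mpr (by omega))
          simpa using hne 2 (by norm_num) (by norm_num)

/-- Walk through `k` records; the value is the last prime, or `0` on failure. -/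
noncomputable def go (k : ℕ) : ℕ → ℕ → ℕ :=
  Nat.rec (motive := fun _ => ℕ → ℕ → ℕ) (fun p _ => p)
    (fun _ ih p D => force (Nat.land D 7) fun c =>
      force (Nat.add p (Nat.mul 6 (Nat.succ (Nat.land (Nat.shiftRight D 3) 1023)))) fun p' =>
        Bool.rec 0 (force (Nat.shiftRight D (Nat.mul 13 (Nat.succ c))) fun D' => ih p' D')
          (rec1 p' c (Nat.shiftRight D 13))) k

open Classical in
noncomputable def cnt (x : ℕ) : ℕ := ((Finset.range (x + 1)).filter Good).card

theorem cnt_step (p q : ℕ) (h : p < q) (hq : Good q) : cnt p + 1 ≤ cnt q := by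
  classical
  unfold cnt
  rw [← Finset.card_insert_of_notMem (a := q) (by simp; omega)]
  refine Finset.card_le_card fun x hx => ?_
  simp only [Finset.mem_insert, Finset.mem_filter, Finset.mem_range] at hx ⊢
  rcases hx with rfl | hx
  · exact ⟨by omega, hq⟩
  · exact ⟨by omega, hx.2⟩

theorem go_succ (k p D : ℕ) (h0 : go (k + 1) p D ≠ 0) :
    ∃ g c D1 D2, rec1 (p + 6 * (g + 1)) c D1 = true ∧ go (k + 1) p D = go k (p + 6 * (g + 1)) D2 := by
  have e : go (k + 1) p D = force (Nat.land D 7) fun c =>
    force (Nat.add p (Nat.mul 6 (Nat.succ (Nat.land (Nat.shiftRight D 3) 1023)))) fun p' =>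
      Bool.rec 0 (force (Nat.shiftRight D (Nat.mul 13 (Nat.succ c))) fun D' => go k p' D')
        (rec1 p' c (Nat.shiftRight D 13)) := rfl
  rw [e, force_eq, force_eq, force_eq] at h0 ⊢
  have e2 : Nat.add p (Nat.mul 6 (Nat.succ (Nat.land (Nat.shiftRight D 3) 1023))) =
      p + 6 * (Nat.land (Nat.shiftRight D 3) 1023 + 1) := rfl
  rw [e2] at h0 ⊢
  generalize Nat.land (Nat.shiftRight D 3) 1023 = g at h0 ⊢
  cases h2 : rec1 (p + 6 * (g + 1)) (Nat.land D 7) (Nat.shiftRight D 13) with
  | false => rw [h2] at h0; exact absurd rfl h0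
  | true => exact ⟨g, _, _, _, h2, rfl⟩

theorem go_mono (k : ℕ) : ∀ p D, p % 6 = 5 → go k p D ≠ 0 → go k p D % 6 = 5 ∧ p ≤ go k p D := by
  induction k with
  | zero => intro p D h _; exact ⟨h, le_rfl⟩
  | succ k ih =>
    intro p D h h0
    obtain ⟨g, c, D1, D2, -, e⟩ := go_succ k p D h0
    rw [e] at h0 ⊢
    obtain ⟨a1, a2⟩ := ih _ _ (by omega) h0
    exact ⟨a1, by omega⟩

theorem go_sound (k : ℕ) : ∀ p D, p % 6 = 5 → go k p D ≠ 0 → go k p D < 51854401 →
    cnt p + k ≤ cnt (go k p D) := by
  induction k with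
  | zero => intro p D _ _ _; exact le_rfl
  | succ k ih =>
    intro p D h h0 h1
    obtain ⟨g, c, D1, D2, hr, e⟩ := go_succ k p D h0
    rw [e] at h0 h1 ⊢
    have a2 := (go_mono k _ _ (by omega) h0).2
    have a3 := ih _ _ (by omega) h0 h1
    have := cnt_step p _ (by omega) (rec1_sound _ _ _ (by omega) (lt_of_le_of_lt a2 h1) hr)
    omega

noncomputable def goL (L : List ℕ) : ℕ → ℕ :=
  List.rec (motive := fun _ => ℕ → ℕ) (fun p => p)
    (fun D _ ih p => Nat.rec (motive := fun _ => ℕ) 0 (fun i _ => ih (Nat.succ i)) (go 100 p D)) L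

theorem goL_cons (D : ℕ) (L : List ℕ) (p : ℕ) (h0 : goL (D :: L) p ≠ 0) :
    go 100 p D ≠ 0 ∧ goL (D :: L) p = goL L (go 100 p D) := by
  have e : goL (D :: L) p =
    Nat.rec (motive := fun _ => ℕ) 0 (fun i _ => goL L (Nat.succ i)) (go 100 p D) := rfl
  rw [e] at h0 ⊢
  cases h2 : go 100 p D with
  | zero => rw [h2] at h0; exact absurd rfl h0
  | succ i => exact ⟨by simp, rfl⟩

theorem goL_mono (L : List ℕ) : ∀ p, p % 6 = 5 → goL L p ≠ 0 → p ≤ goL L p := by
  induction L with
  | nil => intro p _ _; exact le_rfl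
  | cons D L ih =>
    intro p h h0
    obtain ⟨h1, e⟩ := goL_cons D L p h0
    rw [e] at h0 ⊢
    obtain ⟨a1, a2⟩ := go_mono 100 p D h h1
    exact a2.trans (ih _ a1 h0)

theorem goL_sound (L : List ℕ) : ∀ p, p % 6 = 5 → goL L p ≠ 0 → goL L p < 51854401 →
    cnt p + 100 * L.length ≤ cnt (goL L p) := by
  induction L with
  | nil => intro p _ _ _; exact le_rfl
  | cons D L ih =>
    intro p h h0 hb
    obtain ⟨h1, e⟩ := goL_cons D L p h0
    rw [e] at h0 hb ⊢
    obtain ⟨a1, a2⟩ := go_mono 100 p D h h1
    have a3 := goL_mono L _ a1 h0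
    have a4 := go_sound 100 p D h h1 (by omega)
    have a5 := ih _ a1 h0 hb
    rw [List.length_cons]
    omega

theorem fin (L : List ℕ) (p q k : ℕ) (h : (Nat.beq (goL L p) q && Nat.beq (100 * L.length) k &&
    Nat.beq (p % 6) 5 && Nat.blt 0 q && Nat.blt q 51854401) = true) : cnt p + k ≤ cnt q := by
  simp only [Bool.and_eq_true, Nat.blt_eq] at h
  obtain ⟨⟨⟨⟨h1, h2⟩, h3⟩, h4⟩, h5⟩ := h
  have e1 := Nat.eq_of_beq_eq_true h1
  have e2 := Nat.eq_of_beq_eq_true h2
  have := goL_sound L p (Nat.eq_of_beq_eq_true h3) (by omega) (by omega)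
  rwa [e1, e2] at this

end Pool.Agent.Lead.NR
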