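import Pool.Agent.Lead.NR.Core
import Pool.Agent.Lead.NR.D0
import Pool.Agent.Lead.NR.D1
import Pool.Agent.Lead.NR.D2
import Pool.Agent.Lead.NR.D3
import Pool.Agent.Lead.NR.D4
import Pool.Agent.Lead.NR.D5
import Pool.Agent.Lead.NR.D6
import Pool.Agent.Lead.NR.D7
import Pool.Agent.Lead.NR.D8
import Pool.Agent.Lead.NR.D9
import Pool.Agent.Lead.NR.D10
import Pool.Agent.Lead.NR.D11

namespace Pool.Agent.Lead.NR

set_option maxRecDepth 1000000

theorem cnt_big : 742900 ≤ cnt 51459203 := by
  have := f0
  have := f1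
  have := f2
  have := f3
  have := f4
  have := f5
  have := f6
  have := f7
  have := f8
  have := f9
  have := f10
  have := f11
  omega

theorem goodA : Good 51459203 := rec1_sound _ 0 0 (by norm_num) (by norm_num) (by decide +kernel)

theorem goodB : Good 51460433 := rec1_sound _ 0 0 (by norm_num) (by norm_num) (by decide +kernel)

def WL : List (ℕ × ℕ) := [(51459217, 25729608), (51459319, 25729659), (51459337, 25729668), (51459361, 25729680), (51459371, 10291874), (51459439, 25729719), (51459481, 25729740), (51459517, 25729758), (51459523, 25729761), (51459553, 25729776), (51459557, 2237372), (51459613, 25729806), (51459649, 25729824), (51459679, 25729839), (51459757, 25729878), (51459931, 25729965), (51459997, 25729998), (51460001, 10292000), (51460021, 25730010), (51460033, 25730016), (51460063, 25730031), (51460069, 25730034), (51460117, 25730058), (51460141, 25730070), (51460153, 25730076), (51460183, 25730091), (51460231, 25730115), (51460243, 25730121), (51460247, 2708434), (51460333,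 25730166), (51460369, 25730184), (51460429, 25730214)]

def FL : List (ℕ × ℕ × ℕ) := [(51459293, 0, 0), (51459413, 0, 0), (51459509, 0, 0), (51459773, 3, 7314972679), (51459869, 0, 0), (51459887, 1, 67), (51460133, 1, 19), (51460301, 2, 385029), (51460349, 0, 0), (51460391, 2, 483333), (51460397, 1, 13)]

noncomputable def bad (x : ℕ) : Bool :=
  (Nat.blt 1 (Nat.gcd x PP) && Nat.blt (Nat.gcd x PP) x) ||
  [2, 3, 5, 7, 11, 13, 17, 19, 23, 29, 31, 37, 43, 47, 53, 59, 61, 73, 101, 127, 139, 181, 263, 281, 311].any (fun d => Nat.blt 1 d && Nat.blt d x && Nat.beq (x % d) 0) ||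
  WL.any (fun r => Nat.beq r.1 x && Nat.blt 0 r.2 && Nat.blt r.2 (x - 1) &&
    Nat.beq (pw (x - 3) r.2 x) 1) ||
  FL.any (fun r => Nat.beq r.1 x && Nat.ble 5 (x % 8) &&
    fac 2 (x - 1) x r.2.1 r.2.2 ((x - 1) / Nat.gcd (x - 1) (2 ^ 26)))

theorem gap_chk : allB 1229 (fun i => bad (51459204 + i)) = true := by decide +kernel

theorem gap (x : ℕ) (h1 : 51459203 < x) (h2 : x < 51460433) : ¬ Good x := by
  have h := allB_sound _ _ gap_chk (x - 51459204) (by omega)
  rw [show 51459204 + (x - 51459204) = x by omega] at h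
  rintro ⟨hp, g3, g2, -⟩
  have := Fact.mk hp
  simp only [bad, Bool.or_eq_true, Bool.and_eq_true, List.any_eq_true, Nat.blt_eq,
    Nat.ble_eq] at h
  rcases h with ((⟨a, b⟩ | ⟨d, -, ⟨a, b⟩, c⟩) | ⟨r, -, ⟨⟨-, a⟩, b⟩, c⟩) | ⟨r, -, ⟨-, a⟩, b⟩
  · rcases (Nat.dvd_prime hp).mp (Nat.gcd_dvd_left x PP) with e | e <;> omega
  · rcases (Nat.dvd_prime hp).mp (Nat.dvd_of_mod_eq_zero (Nat.eq_of_beq_eq_true c)) with e | e <;>
      omega
  · refine order_ne x _ r.2 a b ?_ g3
    have c' := Nat.eq_of_beq_eq_true c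
    rw [pw_eq] at c'
    have e : (-3 : ZMod x) = ((x - 3 : ℕ) : ZMod x) := by
      rw [Nat.cast_sub (by omega)]; simp
    rw [e, ← Nat.cast_pow, ← Nat.cast_one (R := ZMod x), ZMod.natCast_eq_natCast_iff', c',
      Nat.mod_eq_of_lt (by omega)]
  · have ho := hp.eq_two_or_odd
    apply g2
    have h2' : ((2 : ℕ) : ZMod x) ≠ 0 := by
      intro e
      have := Nat.le_of_dvd (by norm_num) ((ZMod.natCast_eq_zero_iff 2 x).mp e)
      omega
    have := order_of_tests x 2 hp (by omega) h2' (by
      intro hs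
      have := (ZMod.exists_sq_eq_neg_two_iff (p := x) (by omega)).mp (by simpa using hs)
      omega) (fac_sound 2 _ x _ _ _ (lt_of_le_of_lt (Nat.div_le_self _ _) (by omega)) b)
    simpa using this

theorem ineq : 51459203 ^ 742901 ≤ 51460433 ^ 742900 :=
  Nat.le_of_ble_eq_true (by decide +kernel)

end Pool.Agent.Lead.NR
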